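import Pool.Agent.Y773.NV.St1

/-!
# The function `(s - 1) ζ_𝔣(s)`, uniformly in `𝔣`
-/

set_option autoImplicit false

open Complex MeasureTheory NumberField

namespace Pool.Agent.Y210.NV

open Pool.Agent.Y773 (LI)
open Pool.Agent.Y773.NV

section

variable {K : Type} [Field K] [NumberField K]

/-- the primes dividing `𝔣` -/
noncomputable def PF (𝔣 : Ideal (𝓞 K)) : Finset (Ideal (𝓞 K)) :=
  @Finset.filter _ (fun 𝔭 => Prime 𝔭) (Classical.decPred _) (dvs 𝔣)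

lemma mem_PF {𝔣 𝔭 : Ideal (𝓞 K)} (h𝔣 : 𝔣 ≠ ⊥) : 𝔭 ∈ PF 𝔣 ↔ Prime 𝔭 ∧ 𝔭 ∣ 𝔣 := by
  refine (@Finset.mem_filter _ _ (Classical.decPred _) _ _).trans ?_
  rw [mem_dvs h𝔣]
  exact and_comm

lemma coe_PF {𝔣 : Ideal (𝓞 K)} (h𝔣 : 𝔣 ≠ ⊥) :
    ((PF 𝔣 : Finset (Ideal (𝓞 K))) : Set (Ideal (𝓞 K))) = {𝔭 | Prime 𝔭 ∧ 𝔭 ∣ 𝔣} := by
  ext 𝔭
  rw [Finset.mem_coe, mem_PF h𝔣]
  rfl

lemma nm_two {𝔭 : Ideal (𝓞 K)} (h : Prime 𝔭) : 2 ≤ nm 𝔭 := by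
  have h0 : Ideal.absNorm 𝔭 ≠ 0 := by
    rw [Ne, Ideal.absNorm_eq_zero_iff]
    exact h.ne_zero
  have h1 : Ideal.absNorm 𝔭 ≠ 1 := by
    rw [Ne, Ideal.absNorm_eq_one_iff]
    intro h2
    apply h.not_isUnit
    rw [h2, ← Ideal.one_eq_top]
    exact isUnit_one
  have h2 : 2 ≤ Ideal.absNorm 𝔭 := by omega
  unfold nm
  exact_mod_cast h2

lemma nm_one {𝔣 : Ideal (𝓞 K)} (h : 𝔣 ≠ ⊥) : 1 ≤ nm 𝔣 := by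
  have h0 : Ideal.absNorm 𝔣 ≠ 0 := by
    rwa [Ne, Ideal.absNorm_eq_zero_iff]
  unfold nm
  exact_mod_cast Nat.one_le_iff_ne_zero.2 h0

lemma prod_dvd {𝔣 : Ideal (𝓞 K)} (h𝔣 : 𝔣 ≠ ⊥) {A : Finset (Ideal (𝓞 K))} (hA : A ⊆ PF 𝔣) :
    ∏ 𝔭 ∈ A, 𝔭 ∣ 𝔣 :=
  Finset.prod_primes_dvd 𝔣 (fun 𝔭 h => ((mem_PF h𝔣).1 (hA h)).1)
    (fun 𝔭 h => ((mem_PF h𝔣).1 (hA h)).2)

lemma two_pow_le {𝔣 : Ideal (𝓞 K)} (h𝔣 : 𝔣 ≠ ⊥) : 2 ^ (PF 𝔣).card ≤ (dvs 𝔣).card := by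
  classical
  rw [← Finset.card_powerset]
  refine Finset.card_le_card_of_injOn (fun A => ∏ 𝔭 ∈ A, 𝔭) ?_ ?_
  · intro A hA
    rw [Finset.mem_coe, Finset.mem_powerset] at hA
    rw [Finset.mem_coe, mem_dvs h𝔣]
    exact prod_dvd h𝔣 hA
  · have key : ∀ A ⊆ PF 𝔣, ∀ 𝔮 : Ideal (𝓞 K), Prime 𝔮 → (𝔮 ∣ ∏ 𝔭 ∈ A, 𝔭 ↔ 𝔮 ∈ A) := by
      intro A hA 𝔮 h𝔮
      rw [h𝔮.dvd_finsetProd_iff]
      constructor
      · rintro ⟨𝔭, h1, h2⟩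
        have h3 : Associated 𝔮 𝔭 :=
          (h𝔮.dvd_prime_iff_associated ((mem_PF h𝔣).1 (hA h1)).1).1 h2
        rw [associated_iff_eq.1 h3]
        exact h1
      · intro h
        exact ⟨𝔮, h, dvd_rfl⟩
    intro A hA B hB hAB
    rw [Finset.mem_coe, Finset.mem_powerset] at hA hB
    have hAB' : ∏ 𝔭 ∈ A, 𝔭 = ∏ 𝔭 ∈ B, 𝔭 := hAB
    ext 𝔮
    constructor
    · intro h
      have h1 := ((mem_PF h𝔣).1 (hA h)).1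
      rw [← key B hB 𝔮 h1, ← hAB', key A hA 𝔮 h1]
      exact h
    · intro h
      have h1 := ((mem_PF h𝔣).1 (hB h)).1
      rw [← key A hA 𝔮 h1, hAB', key B hB 𝔮 h1]
      exact h

/-- the Euler factor -/
noncomputable def ef (𝔭 : Ideal (𝓞 K)) (s : ℂ) : ℂ := 1 - ((nm 𝔭 : ℝ) : ℂ) ^ (-s)

/-- the product of the Euler factors -/
noncomputable def EE (𝔣 : Ideal (𝓞 K)) (s : ℂ) : ℂ := ∏ 𝔭 ∈ PF 𝔣, ef 𝔭 s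

lemma ef_deriv {𝔭 : Ideal (𝓞 K)} (h : Prime 𝔭) (s : ℂ) :
    HasDerivAt (ef 𝔭) (((nm 𝔭 : ℝ) : ℂ) ^ (-s) * ((Real.log (nm 𝔭) : ℝ) : ℂ)) s := by
  have h2 := nm_two h
  have h0 : ((nm 𝔭 : ℝ) : ℂ) ≠ 0 := by
    have : nm 𝔭 ≠ 0 := by linarith
    exact_mod_cast this
  have h1 : HasDerivAt (fun s : ℂ => -s) (-1) s := (hasDerivAt_id s).neg
  have h3 := (h1.const_cpow (c := ((nm 𝔭 : ℝ) : ℂ)) (Or.inl h0)).const_sub 1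
  refine h3.congr_deriv ?_
  rw [← Complex.ofReal_log (by linarith)]
  ring

lemma EE_diff {𝔣 : Ideal (𝓞 K)} (h𝔣 : 𝔣 ≠ ⊥) : Differentiable ℂ (EE 𝔣) := by
  intro s
  have h : DifferentiableAt ℂ (fun s => ∏ 𝔭 ∈ PF 𝔣, ef 𝔭 s) s :=
    DifferentiableAt.fun_finsetProd fun 𝔭 h𝔭 => (ef_deriv ((mem_PF h𝔣).1 h𝔭).1 s).differentiableAt
  exact h

lemma nm_cpow {𝔭 : Ideal (𝓞 K)} (h : Prime 𝔭) (s : ℂ) :
    ‖((nm 𝔭 : ℝ) : ℂ) ^ (-s)‖ = nm 𝔭 ^ (-s.re) := by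
  have h2 := nm_two h
  rw [Complex.norm_cpow_eq_rpow_re_of_pos (by linarith), Complex.neg_re]

lemma EE_bound {𝔣 : Ideal (𝓞 K)} (h𝔣 : 𝔣 ≠ ⊥) {s : ℂ} (hs : 3 / 4 ≤ s.re) :
    ‖EE 𝔣 s‖ ≤ ((dvs 𝔣).card : ℝ) := by
  have h1 : ‖EE 𝔣 s‖ ≤ 2 ^ (PF 𝔣).card := by
    unfold EE
    rw [norm_prod, ← Finset.prod_const]
    refine Finset.prod_le_prod (fun _ _ => norm_nonneg _) fun 𝔭 h𝔭 => ?_
    have hp := ((mem_PF h𝔣).1 h𝔭).1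
    have h2 := nm_two hp
    refine (norm_sub_le _ _).trans ?_
    rw [norm_one, nm_cpow hp]
    have h3 : nm 𝔭 ^ (-s.re) ≤ 1 := Real.rpow_le_one_of_one_le_of_nonpos (by linarith) (by linarith)
    linarith
  refine h1.trans ?_
  exact_mod_cast two_pow_le h𝔣

lemma ef_one {𝔭 : Ideal (𝓞 K)} (h : Prime 𝔭) : ef 𝔭 1 = ((1 - 1 / nm 𝔭 : ℝ) : ℂ) := by
  unfold ef
  rw [Complex.cpow_neg_one]
  push_cast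
  rw [one_div]

lemma ef_one_ne {𝔭 : Ideal (𝓞 K)} (h : Prime 𝔭) : ef 𝔭 1 ≠ 0 := by
  rw [ef_one h]
  have h2 := nm_two h
  have h3 : 1 / nm 𝔭 < 1 := by
    rw [div_lt_one (by linarith)]
    linarith
  have : (1 - 1 / nm 𝔭 : ℝ) ≠ 0 := by linarith
  exact_mod_cast this

lemma EE_one {𝔣 : Ideal (𝓞 K)} (h𝔣 : 𝔣 ≠ ⊥) :
    EE 𝔣 1 = ((∏ 𝔭 ∈ PF 𝔣, (1 - 1 / nm 𝔭) : ℝ) : ℂ) := by
  unfold EE
  rw [Complex.ofReal_prod]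
  exact Finset.prod_congr rfl fun 𝔭 h𝔭 => ef_one ((mem_PF h𝔣).1 h𝔭).1

lemma PP_pos {𝔣 : Ideal (𝓞 K)} (h𝔣 : 𝔣 ≠ ⊥) : 0 < ∏ 𝔭 ∈ PF 𝔣, (1 - 1 / nm 𝔭) := by
  refine Finset.prod_pos fun 𝔭 h𝔭 => ?_
  have h2 := nm_two ((mem_PF h𝔣).1 h𝔭).1
  have h3 : 1 / nm 𝔭 < 1 := by
    rw [div_lt_one (by linarith)]
    linarith
  linarith

lemma kap_eq {𝔣 : Ideal (𝓞 K)} (h𝔣 : 𝔣 ≠ ⊥) :
    kap 𝔣 = NumberField.dedekindZeta_residue K * ∏ 𝔭 ∈ PF 𝔣, (1 - 1 / nm 𝔭) := by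
  unfold kap
  rw [← coe_PF h𝔣, finprod_mem_coe_finset]

/-- the logarithmic derivative at one -/
lemma EE_deriv {𝔣 : Ideal (𝓞 K)} (h𝔣 : 𝔣 ≠ ⊥) :
    deriv (EE 𝔣) 1 = EE 𝔣 1 * ((∑ 𝔭 ∈ PF 𝔣, Real.log (nm 𝔭) / (nm 𝔭 - 1) : ℝ) : ℂ) := by
  have h1 : logDeriv (fun s => ∏ 𝔭 ∈ PF 𝔣, ef 𝔭 s) 1 = ∑ 𝔭 ∈ PF 𝔣, logDeriv (ef 𝔭) 1 :=
    logDeriv_prod (fun 𝔭 h𝔭 => ef_one_ne ((mem_PF h𝔣).1 h𝔭).1)
      (fun 𝔭 h𝔭 => (ef_deriv ((mem_PF h𝔣).1 h𝔭).1 1).differentiableAt)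
  have h2 : ∀ 𝔭 ∈ PF 𝔣, logDeriv (ef 𝔭) 1 = ((Real.log (nm 𝔭) / (nm 𝔭 - 1) : ℝ) : ℂ) := by
    intro 𝔭 h𝔭
    have hp := ((mem_PF h𝔣).1 h𝔭).1
    have h3 := nm_two hp
    rw [logDeriv_apply, (ef_deriv hp 1).deriv, ef_one hp, Complex.cpow_neg_one]
    have h4 : nm 𝔭 ≠ 0 := by linarith
    have h5 : nm 𝔭 - 1 ≠ 0 := by linarith
    rw [← Complex.ofReal_inv, ← Complex.ofReal_mul, ← Complex.ofReal_div]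
    congr 1
    have h6 : (1 - 1 / nm 𝔭) ≠ 0 := by
      have : 1 / nm 𝔭 < 1 := by
        rw [div_lt_one (by linarith)]
        linarith
      linarith
    field_simp
  rw [Finset.sum_congr rfl h2] at h1
  have hE : EE 𝔣 1 ≠ 0 := by
    rw [EE_one h𝔣]
    exact_mod_cast (PP_pos h𝔣).ne'
  have h3 : logDeriv (EE 𝔣) 1 = deriv (EE 𝔣) 1 / EE 𝔣 1 := logDeriv_apply _ _
  have h4 : logDeriv (EE 𝔣) 1 = ((∑ 𝔭 ∈ PF 𝔣, Real.log (nm 𝔭) / (nm 𝔭 - 1) : ℝ) : ℂ) := by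
    rw [Complex.ofReal_sum]
    exact h1
  rw [← h4, h3]
  field_simp

/-- the sum over the primes dividing `𝔣` -/
lemma sum_bound {𝔣 : Ideal (𝓞 K)} (h𝔣 : 𝔣 ≠ ⊥) {δ : ℝ} (hδ : 0 < δ) :
    ∑ 𝔭 ∈ PF 𝔣, Real.log (nm 𝔭) / (nm 𝔭 - 1) ≤
      δ * Real.log (nm 𝔣) + ((IdM K (1 / δ + 1)).card : ℝ) := by
  classical
  rw [← Finset.sum_filter_add_sum_filter_not (PF 𝔣) (fun 𝔭 => nm 𝔭 ≤ 1 / δ + 1)]
  have h1 : ∑ 𝔭 ∈ (PF 𝔣).filter (fun 𝔭 => nm 𝔭 ≤ 1 / δ + 1), Real.log (nm 𝔭) / (nm 𝔭 - 1) ≤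
      ((IdM K (1 / δ + 1)).card : ℝ) := by
    have h2 : ∑ 𝔭 ∈ (PF 𝔣).filter (fun 𝔭 => nm 𝔭 ≤ 1 / δ + 1), Real.log (nm 𝔭) / (nm 𝔭 - 1) ≤
        ∑ 𝔭 ∈ (PF 𝔣).filter (fun 𝔭 => nm 𝔭 ≤ 1 / δ + 1), (1 : ℝ) := by
      refine Finset.sum_le_sum fun 𝔭 h𝔭 => ?_
      have hp := ((mem_PF h𝔣).1 (Finset.mem_filter.1 h𝔭).1).1
      have h3 := nm_two hp
      rw [div_le_one (by linarith)]
      exact Real.log_le_sub_one_of_pos (by linarith)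
    refine h2.trans ?_
    rw [Finset.sum_const, nsmul_eq_mul, mul_one]
    have h4 : (PF 𝔣).filter (fun 𝔭 => nm 𝔭 ≤ 1 / δ + 1) ⊆ IdM K (1 / δ + 1) := by
      intro 𝔭 h𝔭
      rw [Finset.mem_filter] at h𝔭
      rw [mem_IdM]
      exact ⟨((mem_PF h𝔣).1 h𝔭.1).1.ne_zero, h𝔭.2⟩
    exact_mod_cast Finset.card_le_card h4
  have h2 : ∑ 𝔭 ∈ (PF 𝔣).filter (fun 𝔭 => ¬ nm 𝔭 ≤ 1 / δ + 1), Real.log (nm 𝔭) / (nm 𝔭 - 1) ≤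
      δ * Real.log (nm 𝔣) := by
    have h3 : ∑ 𝔭 ∈ (PF 𝔣).filter (fun 𝔭 => ¬ nm 𝔭 ≤ 1 / δ + 1),
        Real.log (nm 𝔭) / (nm 𝔭 - 1) ≤
        ∑ 𝔭 ∈ (PF 𝔣).filter (fun 𝔭 => ¬ nm 𝔭 ≤ 1 / δ + 1), δ * Real.log (nm 𝔭) := by
      refine Finset.sum_le_sum fun 𝔭 h𝔭 => ?_
      rw [Finset.mem_filter] at h𝔭
      have hp := ((mem_PF h𝔣).1 h𝔭.1).1
      have h4 := nm_two hp
      have h5 : 1 / δ < nm 𝔭 - 1 := by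
        have := h𝔭.2
        rw [not_le] at this
        linarith
      have h6 : 0 ≤ Real.log (nm 𝔭) := Real.log_nonneg (by linarith)
      rw [div_le_iff₀ (by linarith)]
      have h7 : 1 ≤ δ * (nm 𝔭 - 1) := by
        have h8 := mul_lt_mul_of_pos_left h5 hδ
        rw [mul_one_div_cancel hδ.ne'] at h8
        exact h8.le
      nlinarith
    refine h3.trans ?_
    rw [← Finset.mul_sum]
    refine mul_le_mul_of_nonneg_left ?_ hδ.le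
    have h4 : ∑ 𝔭 ∈ (PF 𝔣).filter (fun 𝔭 => ¬ nm 𝔭 ≤ 1 / δ + 1), Real.log (nm 𝔭) =
        Real.log (nm (∏ 𝔭 ∈ (PF 𝔣).filter (fun 𝔭 => ¬ nm 𝔭 ≤ 1 / δ + 1), 𝔭)) := by
      rw [← Real.log_prod]
      · congr 1
        unfold nm
        rw [map_prod]
        push_cast
        rfl
      · intro 𝔭 h𝔭
        have hp := ((mem_PF h𝔣).1 (Finset.mem_filter.1 h𝔭).1).1
        have h5 := nm_two hp
        linarith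
    rw [h4]
    have h5 := prod_dvd h𝔣 (Finset.filter_subset (fun 𝔭 => ¬ nm 𝔭 ≤ 1 / δ + 1) (PF 𝔣))
    have h6 : (∏ 𝔭 ∈ (PF 𝔣).filter (fun 𝔭 => ¬ nm 𝔭 ≤ 1 / δ + 1), 𝔭) ≠ ⊥ := by
      intro h
      rw [h] at h5
      exact h𝔣 (zero_dvd_iff.1 h5)
    refine Real.log_le_log (by linarith [nm_one h6]) ?_
    have h0 : Ideal.absNorm 𝔣 ≠ 0 := by rwa [Ne, Ideal.absNorm_eq_zero_iff]
    have h7 := Nat.le_of_dvd (Nat.pos_of_ne_zero h0)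
      (Ideal.absNorm_dvd_absNorm_of_le (Ideal.dvd_iff_le.mp h5))
    unfold nm
    exact_mod_cast h7
  linarith

end

theorem t_ze : St_ZB → St_LIR → St_DIV → St_ZETA := by
  intro hZB hLIR hDIV K _ _
  obtain ⟨A, C0, Z0, hA, hC0, hd, hf, hb, h1, hres⟩ := hZB K
  refine ⟨A, hA, fun δ hδ => ?_⟩
  obtain ⟨C1, hC1, hdiv, -⟩ := hDIV K δ hδ
  obtain ⟨C, hC⟩ : ∃ C : ℝ, C = C0 * C1 + (‖deriv Z0 1‖ / NumberField.dedekindZeta_residue K +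
    ((IdM K (1 / δ + 1)).card : ℝ)) := ⟨_, rfl⟩
  have hn : 0 ≤ ‖deriv Z0 1‖ / NumberField.dedekindZeta_residue K +
    ((IdM K (1 / δ + 1)).card : ℝ) := by positivity
  have hC01 : 1 ≤ C0 * C1 := one_le_mul_of_one_le_of_one_le hC0 hC1
  refine ⟨C, by rw [hC]; linarith, fun 𝔣 h𝔣 => ⟨fun s => Z0 s * EE 𝔣 s, ?_, ?_, ?_, ?_, ?_⟩⟩
  · exact hd.mul (EE_diff h𝔣).differentiableOn
  · intro s hs
    show Z0 s * EE 𝔣 s = _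
    rw [hf s hs, hLIR K 𝔣 s h𝔣 hs, ← coe_PF h𝔣, finprod_mem_coe_finset]
    unfold EE ef
    ring
  · intro s hs hs3
    show ‖Z0 s * EE 𝔣 s‖ ≤ _
    rw [norm_mul]
    have h2 := hb s hs hs3
    have h3 : ‖EE 𝔣 s‖ ≤ C1 * nm 𝔣 ^ δ := (EE_bound h𝔣 hs).trans (hdiv 𝔣 h𝔣)
    have h4 : (0 : ℝ) ≤ nm 𝔣 ^ δ := Real.rpow_nonneg (by linarith [nm_one h𝔣]) _
    calc ‖Z0 s‖ * ‖EE 𝔣 s‖ ≤ (C0 * Real.exp (A * |s.im|)) * (C1 * nm 𝔣 ^ δ) :=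
          mul_le_mul h2 h3 (norm_nonneg _) (by positivity)
      _ = C0 * C1 * nm 𝔣 ^ δ * Real.exp (A * |s.im|) := by ring
      _ ≤ C * nm 𝔣 ^ δ * Real.exp (A * |s.im|) := by
          refine mul_le_mul_of_nonneg_right (mul_le_mul_of_nonneg_right ?_ h4) (Real.exp_pos _).le
          rw [hC]; linarith
  · show Z0 1 * EE 𝔣 1 = _
    rw [h1, EE_one h𝔣, kap_eq h𝔣, ← Complex.ofReal_mul]
  · have hz0 : DifferentiableAt ℂ Z0 1 := by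
      refine hd.differentiableAt ?_
      refine (isOpen_lt continuous_const Complex.continuous_re).mem_nhds ?_
      show (1 / 2 : ℝ) < (1 : ℂ).re
      norm_num
    have h2 : deriv (fun s => Z0 s * EE 𝔣 s) 1 = deriv Z0 1 * EE 𝔣 1 + Z0 1 * deriv (EE 𝔣) 1 :=
      deriv_fun_mul hz0 (EE_diff h𝔣 1)
    have hPP := PP_pos h𝔣
    have hS0 : 0 ≤ ∑ 𝔭 ∈ PF 𝔣, Real.log (nm 𝔭) / (nm 𝔭 - 1) := by
      refine Finset.sum_nonneg fun 𝔭 h𝔭 => ?_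
      have h3 := nm_two ((mem_PF h𝔣).1 h𝔭).1
      exact div_nonneg (Real.log_nonneg (by linarith)) (by linarith)
    rw [h2, EE_deriv h𝔣, h1, EE_one h𝔣]
    refine (norm_add_le _ _).trans ?_
    rw [norm_mul, norm_mul, norm_mul, Complex.norm_real, Complex.norm_real, Complex.norm_real,
      Real.norm_eq_abs, Real.norm_eq_abs, Real.norm_eq_abs, abs_of_pos hPP, abs_of_pos hres,
      abs_of_nonneg hS0, kap_eq h𝔣]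
    have h3 := sum_bound h𝔣 hδ
    have h4 : ‖deriv Z0 1‖ * ∏ 𝔭 ∈ PF 𝔣, (1 - 1 / nm 𝔭) +
        NumberField.dedekindZeta_residue K * ((∏ 𝔭 ∈ PF 𝔣, (1 - 1 / nm 𝔭)) *
          ∑ 𝔭 ∈ PF 𝔣, Real.log (nm 𝔭) / (nm 𝔭 - 1)) =
        NumberField.dedekindZeta_residue K * (∏ 𝔭 ∈ PF 𝔣, (1 - 1 / nm 𝔭)) *
          (‖deriv Z0 1‖ / NumberField.dedekindZeta_residue K +
            ∑ 𝔭 ∈ PF 𝔣, Real.log (nm 𝔭) / (nm 𝔭 - 1)) := by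
      field_simp
    rw [h4]
    refine mul_le_mul_of_nonneg_left ?_ (mul_pos hres hPP).le
    rw [hC]
    linarith

end Pool.Agent.Y210.NV
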